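import Pool.Agent.Helper17.DF.Fast
import Pool.Agent.Helper17.CT.NoData
import Pool.Agent.Helper14.DF.F1
import Pool.Agent.Helper23.DF.Cands

set_option autoImplicit false

/-!
DF-5: the fast check of one colouring.
-/

namespace Pool.Agent.Helper17.CT

namespace DF5

/-! ### the path following depends only on the darts of the piece -/

theorem tr_succ (F : Code) (u : ℕ → Bool) (f x cov : ℕ) : tr F u (f + 1) x cov =
    match d4 F.P (oth u x) with
      | 0 => tr F u f (d6 F.E (oth u x)) (Nat.lor cov (Nat.shiftLeft 1 (Nat.div x 3)))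
      | j + 1 => some (j, (Nat.lor cov (Nat.shiftLeft 1 (Nat.div x 3)))) := rfl

theorem trs_succ (F : Code) (u : ℕ → Bool) (f j m cov : ℕ) : trs F u (f + 1) j m cov =
    cond (u (d6 F.Q j))
      (match tr F u F.n (d6 F.Q j) cov with
        | none => none
        | some (j', cov') => trs F u f (j + 1) (Nat.lor m (Nat.shiftLeft j' (Nat.mul 4 j))) cov')
      (trs F u f (j + 1) (Nat.lor m (Nat.shiftLeft j (Nat.mul 4 j))) cov) := rfl

theorem oth_congr {n : ℕ} {u u' : ℕ → Bool} (h : ∀ x < 3 * n, u x = u' x) {x : ℕ}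
    (hx : x < 3 * n) : oth u x = oth u' x := by
  unfold oth
  rw [h _ (nx_lt hx)]

theorem oth_lt {n : ℕ} (u : ℕ → Bool) {x : ℕ} (hx : x < 3 * n) : oth u x < 3 * n := by
  unfold oth
  cases u (nx x)
  · exact nx_lt (nx_lt hx)
  · exact nx_lt hx

theorem tr_congr {F : Code} (hF : CodeOK F) {u u' : ℕ → Bool}
    (h : ∀ x < 3 * F.n, u x = u' x) (f : ℕ) :
    ∀ x cov, x < 3 * F.n → tr F u f x cov = tr F u' f x cov := by
  induction f with
  | zero => intro x cov _; rfl
  | succ f ih =>
    intro x cov hx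
    rw [tr_succ, tr_succ, oth_congr h hx]
    cases hd : d4 F.P (oth u' x) with
    | zero => exact ih _ _ (hF.e_lt (oth_lt u' hx))
    | succ j => rfl

theorem trs_congr {F : Code} (hF : CodeOK F) {u u' : ℕ → Bool}
    (h : ∀ x < 3 * F.n, u x = u' x) (f : ℕ) :
    ∀ j m cov, j + f ≤ F.k → trs F u f j m cov = trs F u' f j m cov := by
  induction f with
  | zero => intro j m cov _; rfl
  | succ f ih =>
    intro j m cov hj
    have hq := (hF.q j (by omega)).1
    rw [trs_succ, trs_succ, h _ hq, tr_congr hF h _ _ _ hq]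
    cases u' (d6 F.Q j) with
    | false => exact ih _ _ _ (by omega)
    | true =>
      cases tr F u' F.n (d6 F.Q j) cov with
      | none => rfl
      | some r => exact ih _ _ _ (by omega)

/-! ### search -/

theorem allL_iff {α : Type} (g : α → Bool) (l : List α) :
    allL g l = true ↔ ∀ a ∈ l, g a = true := by
  induction l with
  | nil => simp [allL]
  | cons a l ih =>
    have h : allL g (a :: l) = (g a && allL g l) := rfl
    rw [h, Bool.and_eq_true, ih]
    simp

theorem get_all (g : Sy → Bool) (U : ℕ) (S : Tri') : ∀ (p : ℕ) (s : Sy),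
    Tri'.all g S = true → s ∈ S.get U p → g s = true := by
  induction S with
  | leaf l =>
    intro p s h hs
    exact (allL_iff g l).mp h s hs
  | node l r ihl ihr =>
    intro p s h hs
    have h1 : (Tri'.all g l && Tri'.all g r) = true := h
    rw [Bool.and_eq_true] at h1
    have h2 : s ∈ cond (tb U p) (Tri'.get U r (p + 1)) (Tri'.get U l (p + 1)) := hs
    cases hc : tb U p
    · rw [hc] at h2
      exact ihl _ s h1.1 h2
    · rw [hc] at h2
      exact ihr _ s h1.2 h2

theorem findR_cons (Ts : ℕ) (e : Bool) (K : BT → Bool) (s : Sz) (l : List Sz) :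
    findR Ts e K (s :: l) = Bool.rec (findR Ts e K l) (K s.C) (Nat.beq s.Ts Ts) := rfl

theorem findR_or (Ts : ℕ) (e : Bool) (K : BT → Bool) (l : List Sz)
    (h : findR Ts e K l = true) : e = true ∨ ∃ s ∈ l, s.Ts = Ts ∧ K s.C = true := by
  induction l with
  | nil => exact Or.inl h
  | cons s l ih =>
    rw [findR_cons] at h
    cases hb : Nat.beq s.Ts Ts with
    | false =>
      rw [hb] at h
      rcases ih h with h1 | ⟨s', h1, h2⟩
      · exact Or.inl h1
      · exact Or.inr ⟨s', List.mem_cons_of_mem _ h1, h2⟩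
    | true =>
      rw [hb] at h
      exact Or.inr ⟨s, List.mem_cons_self, Nat.beq_eq.mp hb, h⟩

theorem getR_cons (Ts : ℕ) (a b : Tri2) (q : ℕ) (qs : List ℕ) :
    getR Ts (.node a b) (q :: qs) = Bool.rec (getR Ts a qs) (getR Ts b qs) (tb Ts q) := rfl

theorem getR_all (g : Sz → Bool) (Ts : ℕ) (t : Tri2) : ∀ (qs : List ℕ) (s : Sz),
    Tri2.all g t = true → s ∈ getR Ts t qs → g s = true := by
  induction t with
  | leaf l => intro qs s h hs; exact (allL_iff g l).mp h s hs
  | node a b iha ihb =>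
    intro qs s h hs
    have h1 : (Tri2.all g a && Tri2.all g b) = true := h
    rw [Bool.and_eq_true] at h1
    cases qs with
    | nil =>
      have h2 : s ∈ ([] : List Sz) := hs
      cases h2
    | cons q qs =>
      rw [getR_cons] at hs
      cases hc : tb Ts q with
      | false => rw [hc] at hs; exact iha _ _ h1.1 hs
      | true => rw [hc] at hs; exact ihb _ _ h1.2 hs

theorem andR_true {x y : Bool} (h : andR x y = true) : x = true ∧ y = true := by
  cases x with
  | false => exact absurd h (by intro h0; cases h0)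
  | true => exact ⟨rfl, h⟩

theorem orR_true {x y : Bool} (h : orR x y = true) : x = true ∨ y = true := by
  cases x with
  | false => exact Or.inr h
  | true => exact Or.inl rfl

theorem allLR_all {α : Type} (g : α → Bool) (l : List α) (h : allLR g l = true) :
    ∀ a ∈ l, g a = true := by
  induction l with
  | nil => intro a ha; cases ha
  | cons b l ih =>
    have h0 : andR (g b) (allLR g l) = true := h
    obtain ⟨h1, h2⟩ := andR_true h0
    intro a ha
    rcases List.mem_cons.1 ha with rfl | ha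
    · exact h1
    · exact ih h2 a ha

theorem allNR_all (g : ℕ → Bool) (n : ℕ) (h : allNR g n = true) : ∀ i < n, g i = true := by
  induction n with
  | zero => intro i hi; exact absurd hi (Nat.not_lt_zero i)
  | succ n ih =>
    have h0 : andR (g n) (allNR g n) = true := h
    obtain ⟨h1, h2⟩ := andR_true h0
    intro i hi
    rcases Nat.lt_succ_iff_lt_or_eq.mp hi with h3 | h3
    · exact ih h2 i h3
    · rw [h3]; exact h1

theorem memR_of (s : Sz) (l : List Sy) (h : memR s l = true) :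
    ∃ s' ∈ l, s'.U = s.U ∧ s'.T = s.T ∧ s'.m = s.m := by
  induction l with
  | nil => exact absurd h (by intro h0; cases h0)
  | cons a l ih =>
    have h0 : orR (andR (Nat.beq a.U s.U) (andR (Nat.beq a.T s.T) (Nat.beq a.m s.m)))
      (memR s l) = true := h
    rcases orR_true h0 with h1 | h1
    · obtain ⟨h2, h3⟩ := andR_true h1
      obtain ⟨h4, h5⟩ := andR_true h3
      exact ⟨a, List.mem_cons_self, Nat.beq_eq.mp h2, Nat.beq_eq.mp h4, Nat.beq_eq.mp h5⟩
    · obtain ⟨s', h2, h3⟩ := ih h1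
      exact ⟨s', List.mem_cons_of_mem _ h2, h3⟩

/-- what `okSzR` says -/
theorem okSzR_of {F : Code} {S : Tri'} {s : Sz} (h : okSzR F S s = true) :
    (∃ s' ∈ S.get s.U 0, s'.U = s.U ∧ s'.T = s.T ∧ s'.m = s.m) ∧
    (∀ x < 3 * F.n, tb s.T x = tb s.Ts (2 * x)) ∧
    okBR F.k (S.get s.U 0) s.T s.U s.m F.k 0 [] 0 (popc s.U F.k) 0 s.C = true := by
  have h0 : andR (memR s (S.get s.U 0))
     (andR (allNR (fun x => Bool.rec (not (tb s.Ts (Nat.mul 2 x))) (tb s.Ts (Nat.mul 2 x))
        (tb s.T x)) (Nat.mul 3 F.n))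
      (okBR F.k (S.get s.U 0) s.T s.U s.m F.k 0 [] 0 (popc s.U F.k) 0 s.C)) = true := h
  obtain ⟨h1, h2⟩ := andR_true h0
  obtain ⟨h3, h4⟩ := andR_true h2
  refine ⟨memR_of _ _ h1, ?_, h4⟩
  intro x hx
  have h5 := allNR_all _ _ h3 x hx
  have h6 : (Bool.rec (not (tb s.Ts (2 * x))) (tb s.Ts (2 * x)) (tb s.T x) : Bool) = true := h5
  revert h6
  cases tb s.T x with
  | false =>
    intro h6
    have h7 : (!(tb s.Ts (2 * x))) = true := h6
    rw [Bool.not_eq_true'] at h7
    exact h7.symm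
  | true =>
    intro h6
    exact (show tb s.Ts (2 * x) = true from h6).symm

/-! ### masks -/

theorem portM_bit (F : Code) (G i : ℕ) : ∀ f acc x, (portM F G i f acc).testBit x =
    (acc.testBit x || decide (x < f ∧ d2 G (d6 F.Q x) ≠ i)) := by
  intro f
  induction f with
  | zero =>
    intro acc x
    simp [portM]
  | succ f ih =>
    intro acc x
    have h0 : portM F G i (f + 1) acc = portM F G i f
      (cond (Nat.beq (d2 G (d6 F.Q f)) i) acc (acc ||| (1 <<< f))) := rfl
    rw [h0, ih]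
    by_cases h : d2 G (d6 F.Q f) = i
    · have h1 : Nat.beq (d2 G (d6 F.Q f)) i = true := by rw [Nat.beq_eq]; exact h
      rw [h1, cond_true]
      congr 1
      apply decide_eq_decide.2
      constructor
      · rintro ⟨h2, h3⟩
        exact ⟨by omega, h3⟩
      · rintro ⟨h2, h3⟩
        refine ⟨?_, h3⟩
        rcases Nat.lt_succ_iff_lt_or_eq.1 h2 with h4 | h4
        · exact h4
        · rw [h4] at h3
          exact absurd h h3
    · have h1 : Nat.beq (d2 G (d6 F.Q f)) i = false := by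
        rw [← Bool.not_eq_true, Nat.beq_eq]
        exact h
      rw [h1, cond_false, Nat.testBit_or, Bool.or_assoc]
      congr 1
      rw [Nat.testBit_shiftLeft]
      by_cases hx : x = f
      · subst hx
        simp [h]
      · have h2 : (decide (x ≥ f) && Nat.testBit 1 (x - f)) = false := by
          by_cases h3 : f ≤ x
          · have h4 : x - f ≠ 0 := by omega
            have h5 : Nat.testBit 1 (x - f) = false := by
              apply Nat.testBit_lt_two_pow
              exact Nat.one_lt_two_pow h4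
            rw [h5, Bool.and_false]
          · simp [h3]
        rw [h2, Bool.false_or]
        apply decide_eq_decide.2
        constructor
        · rintro ⟨h2, h3⟩
          exact ⟨by omega, h3⟩
        · rintro ⟨h2, h3⟩
          exact ⟨by omega, h3⟩

theorem beq_dec (a b : ℕ) : Nat.beq a b = decide (a = b) := by
  by_cases h : a = b
  · rw [decide_eq_true h]; exact Nat.beq_eq.mpr h
  · rw [decide_eq_false h, ← Bool.not_eq_true, Nat.beq_eq]; exact h

/-- what `okSy` says -/
theorem okSy_of {F : Code} {s : Sy} (h : okSy F s = true) :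
    (∀ x < 3 * F.n, d4 F.P x ≠ 0 → tb s.U (d4 F.P x - 1) = tb s.T x) ∧
    ∃ cov, trs F (fun x => tb s.T x) F.k 0 0 0 = some (s.m, cov) := by
  have h0 : ∃ A : Bool, okSy F s = (A &&
      ((allN (fun x => cond (Nat.beq (d4 F.P x) 0) ((tb s.T (d6 F.E x)) == tb s.T x)
      (tb s.U (d4 F.P x - 1) == tb s.T x)) (3 * F.n)) &&
      (match trs F (fun x => tb s.T x) F.k 0 0 0 with
    | none => false
    | some (m, cov) => and (Nat.beq m s.m) (and (Nat.beq cov (Nat.pred (Nat.shiftLeft 1 F.n)))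
        (and (not (Nat.beq s.U 0)) (and (Nat.beq (Nat.shiftRight s.U F.k) 0)
          (Nat.beq (Nat.shiftRight s.T (Nat.mul 3 F.n)) 0))))))) := ⟨_, rfl⟩
  obtain ⟨A, h0⟩ := h0
  rw [h0, Bool.and_eq_true, Bool.and_eq_true] at h
  obtain ⟨-, h1, h⟩ := h
  constructor
  · intro x hx hP
    have h2 := (allN_iff _ _).mp h1 x hx
    have h3 : Nat.beq (d4 F.P x) 0 = false := by
      rw [← Bool.not_eq_true, Nat.beq_eq]; exact hP
    rw [h3, cond_false] at h2
    exact beq_iff_eq.mp h2
  · cases ht : trs F (fun x => tb s.T x) F.k 0 0 0 with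
    | none => rw [ht] at h; exact absurd h (by simp)
    | some mc =>
      obtain ⟨m, cov⟩ := mc
      rw [ht] at h
      have h2 : (Nat.beq m s.m && (Nat.beq cov (Nat.pred (Nat.shiftLeft 1 F.n)) &&
        (!(Nat.beq s.U 0) && (Nat.beq (Nat.shiftRight s.U F.k) 0 &&
          Nat.beq (Nat.shiftRight s.T (3 * F.n)) 0)))) = true := h
      rw [Bool.and_eq_true, Nat.beq_eq] at h2
      exact ⟨cov, by rw [h2.1]⟩

/-- one colour -/
theorem vals_eq {F : Code} (hF : CodeOK F) {S : Tri'} (hS : Tri'.all (okSy F) S = true)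
    {s : Sz} (hs : okSzR F S s = true) (T : TT) (G i : ℕ)
    (hT : ∀ x < 3 * F.n, tb s.Ts (2 * x) = decide (d2 G x ≠ i)) :
    vals F S T G i = cands F S G s.T s.U s.m F.k 0 [] (popc s.U F.k) 0 T := by
  obtain ⟨⟨s', hs', hU, hT', hm⟩, hbit, -⟩ := okSzR_of hs
  have hok := get_all _ _ _ _ _ hS hs'
  obtain ⟨hb1, hb2⟩ := FS11.okSy_bounds F s' hok
  obtain ⟨hp, cov, htr⟩ := okSy_of hok
  rw [hU] at hb1 hp
  rw [hT'] at hb2 hp htr
  rw [hm] at htr
  have hTx : ∀ x < 3 * F.n, tb s.T x = decide (d2 G x ≠ i) := fun x hx => by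
    rw [hbit x hx, hT x hx]
  have h1 : trs F (fun x => not (Nat.beq (d2 G x) i)) F.k 0 0 0 = some (s.m, cov) := by
    rw [← htr]
    refine trs_congr hF (fun x hx => ?_) _ _ _ _ (by omega)
    show (!(Nat.beq (d2 G x) i)) = tb s.T x
    rw [hTx x hx, beq_dec, ← decide_not]
  have h2 : maskOf G i (3 * F.n) 0 = s.T := by
    apply Nat.eq_of_testBit_eq
    intro x
    rw [FS11.maskOf_bit, Nat.zero_testBit, Bool.false_or]
    by_cases hx : x < 3 * F.n
    · rw [← FS11.tb_eq, hTx x hx]
      simp [hx]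
    · have h3 : 2 ^ (3 * F.n) ≤ 2 ^ x := Nat.pow_le_pow_right (by norm_num) (by omega)
      rw [Nat.testBit_lt_two_pow (lt_of_lt_of_le hb2 h3)]
      simp [hx]
  have h4 : portM F G i F.k 0 = s.U := by
    apply Nat.eq_of_testBit_eq
    intro j
    rw [portM_bit, Nat.zero_testBit, Bool.false_or]
    by_cases hj : j < F.k
    · obtain ⟨h5, h6⟩ := hF.q j hj
      have h7 := hp _ h5 (by omega)
      rw [h6, Nat.add_sub_cancel, FS11.tb_eq, hTx _ h5] at h7
      rw [h7]
      simp [hj]
    · have h3 : 2 ^ F.k ≤ 2 ^ j := Nat.pow_le_pow_right (by norm_num) (by omega)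
      rw [Nat.testBit_lt_two_pow (lt_of_lt_of_le hb1 h3)]
      simp [hj]
  have h0 : vals F S T G i = match trs F (fun x => !(Nat.beq (d2 G x) i)) F.k 0 0 0 with
      | none => none
      | some (m, _) => cands F S G (maskOf G i (3 * F.n) 0) (portM F G i F.k 0) m F.k 0 []
          (popc (portM F G i F.k 0) F.k) 0 T := rfl
  rw [h0, h1, h2, h4]

/-- one colour, with the continuation -/
theorem col_step {F : Code} (hF : CodeOK F) {S : Tri'} (hS : Tri'.all (okSy F) S = true)
    {s : Sz} (hs : okSzR F S s = true) (T : TT) (G i : ℕ)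
    (hT : ∀ x < 3 * F.n, tb s.Ts (2 * x) = decide (d2 G x ≠ i)) (K : List ℕ → Bool)
    (hK : valsL F G s.C 0 [] T K [] = true) :
    ∃ l acc, vals F S T G i = some l ∧ (∀ w ∈ l, w ∈ acc) ∧ K acc = true := by
  rw [vals_eq hF hS hs T G i hT]
  exact cands_of F S G s.T s.U s.m _ T s.C (okSzR_of hs).2.2 K [] hK

/-! ### the spread masks -/

theorem d2_bits (G x : ℕ) : d2 G x = (G.testBit (2 * x)).toNat + 2 * (G.testBit (2 * x + 1)).toNat := by
  have h0 : d2 G x = (G >>> (2 * x)) % 4 := rfl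
  have h1 : G.testBit (2 * x) = (G >>> (2 * x)).testBit 0 := by
    rw [Nat.testBit_shiftRight, Nat.add_zero]
  have h2 : G.testBit (2 * x + 1) = (G >>> (2 * x)).testBit 1 := by
    rw [Nat.testBit_shiftRight]
  rw [h0, h1, h2]
  generalize G >>> (2 * x) = y
  rw [Nat.testBit_eq_decide_div_mod_eq, Nat.testBit_eq_decide_div_mod_eq, pow_zero, pow_one,
    Nat.div_one]
  have h3 : y % 2 = 0 ∨ y % 2 = 1 := by omega
  have h4 : y / 2 % 2 = 0 ∨ y / 2 % 2 = 1 := by omega
  rcases h3 with h3 | h3 <;> rcases h4 with h4 | h4 <;> rw [h3, h4] <;> simp <;> omega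

theorem mask_bits {M G x : ℕ} (hM : tb M (2 * x) = true) (hG : d2 G x < 3) :
    tb (Nat.lor (Nat.land G M) (Nat.land (Nat.shiftRight G 1) M)) (2 * x) = decide (d2 G x ≠ 0) ∧
    tb (Nat.xor M (Nat.land G M)) (2 * x) = decide (d2 G x ≠ 1) ∧
    tb (Nat.xor M (Nat.land (Nat.shiftRight G 1) M)) (2 * x) = decide (d2 G x ≠ 2) := by
  rw [FS11.tb_eq] at hM
  have e0 : Nat.lor (Nat.land G M) (Nat.land (Nat.shiftRight G 1) M) =
    (G &&& M) ||| ((G >>> 1) &&& M) := rfl
  have e1 : Nat.xor M (Nat.land G M) = M ^^^ (G &&& M) := rfl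
  have e2 : Nat.xor M (Nat.land (Nat.shiftRight G 1) M) = M ^^^ ((G >>> 1) &&& M) := rfl
  rw [e0, e1, e2, FS11.tb_eq, FS11.tb_eq, FS11.tb_eq, Nat.testBit_or, Nat.testBit_xor,
    Nat.testBit_xor, Nat.testBit_and, Nat.testBit_and, Nat.testBit_shiftRight, hM,
    Nat.add_comm 1 (2 * x)]
  rw [d2_bits] at hG ⊢
  revert hG
  cases G.testBit (2 * x) <;> cases G.testBit (2 * x + 1) <;> intro hG
  · exact ⟨rfl, rfl, rfl⟩
  · exact ⟨rfl, rfl, rfl⟩
  · exact ⟨rfl, rfl, rfl⟩
  · exact absurd hG (by decide)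

theorem nozero_of {l0 l1 l2 a0 a1 a2 : List ℕ} (h0 : ∀ w ∈ l0, w ∈ a0) (h1 : ∀ w ∈ l1, w ∈ a1)
    (h2 : ∀ w ∈ l2, w ∈ a2) (h : nozeroR a0 a1 a2 = true) : nozero l0 l1 l2 = true := by
  have e : nozero l0 l1 l2 = allL (fun x => allL (fun y => allL (fun z =>
    !(Nat.beq (x ^^^ (y ^^^ z)) 0)) l2) l1) l0 := rfl
  rw [e, allL_iff]
  intro x hx
  rw [allL_iff]
  intro y hy
  rw [allL_iff]
  intro z hz
  have h3 : (!(Nat.beq (x ^^^ y) z)) = true :=
    allLR_all _ _ (allLR_all _ _ (allLR_all _ _ h x (h0 x hx)) y (h1 y hy)) z (h2 z hz)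
  rw [beq_dec, ← decide_not, decide_eq_true_iff] at h3
  rw [beq_dec, ← decide_not, decide_eq_true_iff]
  intro h4
  apply h3
  rw [← Nat.xor_assoc] at h4
  exact Nat.xor_eq_zero_iff.mp h4

end DF5

open DF5

theorem okCol2R_sound (F : Code) (hF : CodeOK F) (S : Tri') (S2 : Tri2) (qs : List ℕ) (M : ℕ)
    (T : TT) (hS : Tri'.all (okSy F) S = true) (hZ : Tri2.all (okSzR F S) S2 = true)
    (hM : okM F M = true) (G : ℕ) (hG : ∀ x < 3 * F.n, d2 G x < 3)
    (h : okCol2R F S2 qs M T G = true) : okCol F S T G = true := by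
  have hM' : ∀ x < 3 * F.n, tb M (2 * x) = true := (allN_iff _ _).mp hM
  have h0 : okCol F S T G = ((incov F G 0) || ((incov F G 1) || ((incov F G 2) ||
    (match vals F S T G 0 with
    | none => false
    | some l0 =>
      match vals F S T G 1 with
      | none => false
      | some l1 =>
        match vals F S T G 2 with
        | none => false
        | some l2 => nozero l0 l1 l2)))) := rfl
  rw [h0]
  have e : findR (Nat.lor (Nat.land G M) (Nat.land (Nat.shiftRight G 1) M)) (incovR F G 0)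
      (fun C0 => findR (Nat.xor M (Nat.land G M)) (incovR F G 1) (fun C1 =>
        findR (Nat.xor M (Nat.land (Nat.shiftRight G 1) M)) (incovR F G 2) (fun C2 =>
          valsL F G C0 0 [] T (fun l0 => valsL F G C1 0 [] T (fun l1 => valsL F G C2 0 [] T
            (fun l2 => nozeroR l0 l1 l2) []) []) [])
          (getR (Nat.xor M (Nat.land (Nat.shiftRight G 1) M)) S2 qs))
        (getR (Nat.xor M (Nat.land G M)) S2 qs))
      (getR (Nat.lor (Nat.land G M) (Nat.land (Nat.shiftRight G 1) M)) S2 qs) = true := h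
  rcases findR_or _ _ _ _ e with h1 | ⟨s0, hs0, ht0, h1⟩
  · rw [incovR_eq] at h1
    rw [h1, Bool.true_or]
  rcases findR_or _ _ _ _ h1 with h2 | ⟨s1, hs1, ht1, h2⟩
  · rw [incovR_eq] at h2
    rw [h2, Bool.true_or, Bool.or_true]
  rcases findR_or _ _ _ _ h2 with h3 | ⟨s2, hs2, ht2, h3⟩
  · rw [incovR_eq] at h3
    rw [h3, Bool.true_or, Bool.or_true, Bool.or_true]
  have k0 := getR_all _ _ _ _ _ hZ hs0
  have k1 := getR_all _ _ _ _ _ hZ hs1
  have k2 := getR_all _ _ _ _ _ hZ hs2
  obtain ⟨l0, a0, hl0, ha0, h4⟩ := col_step hF hS k0 T G 0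
    (fun x hx => by rw [ht0]; exact (mask_bits (hM' x hx) (hG x hx)).1) _ h3
  obtain ⟨l1, a1, hl1, ha1, h5⟩ := col_step hF hS k1 T G 1
    (fun x hx => by rw [ht1]; exact (mask_bits (hM' x hx) (hG x hx)).2.1) _ h4
  obtain ⟨l2, a2, hl2, ha2, h6⟩ := col_step hF hS k2 T G 2
    (fun x hx => by rw [ht2]; exact (mask_bits (hM' x hx) (hG x hx)).2.2) _ h5
  rw [hl0, hl1, hl2]
  have h7 : nozero l0 l1 l2 = true := nozero_of ha0 ha1 ha2 h6
  show ((incov F G 0) || ((incov F G 1) || ((incov F G 2) || nozero l0 l1 l2))) = true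
  rw [h7, Bool.or_true, Bool.or_true, Bool.or_true]

theorem cstR_cstG (F : Code) (G n : ℕ) : cstR F G n = cstG F G n := by
  induction n with
  | zero => rfl
  | succ n ih =>
    have h0 : cstR F G (n + 1) = andR (Nat.beq (d2 G (d6 F.Q n)) (d2 G (d6 F.Q 0)))
      (cstR F G n) := rfl
    have h1 : cstG F G (n + 1) = ((Nat.beq (d2 G (d6 F.Q n)) (d2 G (d6 F.Q 0))) &&
      (cstG F G n)) := rfl
    rw [h0, h1, ih]
    cases Nat.beq (d2 G (d6 F.Q n)) (d2 G (d6 F.Q 0)) <;> rfl

theorem okG2R_sound (F : Code) (hF : CodeOK F) (S : Tri') (S2 : Tri2) (qs : List ℕ) (M : ℕ)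
    (T : TT) (hS : Tri'.all (okSy F) S = true) (hZ : Tri2.all (okSzR F S) S2 = true)
    (hM : okM F M = true) (G : ℕ) (hG : ∀ x < 3 * F.n, d2 G x < 3)
    (h : okG2R F S S2 qs M T G = true) : okG F S T G = true := by
  have h0 : (Bool.rec (Bool.rec (okCol2R F S2 qs M T G)
      (match d2 G (d6 F.Q 0) with
        | 0 => okCst F S G 0 1 2
        | 1 => okCst F S G 1 0 2
        | _ => okCst F S G 2 0 1)
     (cstR F G F.k))
    (or (loopy F G 0) (or (loopy F G 1) (loopy F G 2))) (Nat.beq F.k 0) : Bool) = true := h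
  have h1 : okG F S T G = cond (Nat.beq F.k 0) (or (loopy F G 0) (or (loopy F G 1) (loopy F G 2)))
    (cond (cstG F G F.k)
      (match d2 G (d6 F.Q 0) with
        | 0 => okCst F S G 0 1 2
        | 1 => okCst F S G 1 0 2
        | _ => okCst F S G 2 0 1)
      (okCol F S T G)) := rfl
  rw [h1]
  cases hk : Nat.beq F.k 0 with
  | true =>
    rw [hk] at h0
    exact h0
  | false =>
    rw [hk, cstR_cstG] at h0
    cases hc : cstG F G F.k with
    | true =>
      rw [hc] at h0
      exact h0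
    | false =>
      rw [hc] at h0
      exact okCol2R_sound F hF S S2 qs M T hS hZ hM G hG h0

end Pool.Agent.Helper17.CT
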